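import Pool.Agent.R210.X10

/-!
A maximum principle for two functions on the half plane.
-/

open MeasureTheory Set Metric Filter Topology
open scoped ContDiff
open H459R3.NS Pool.Agent.R210.Ax

namespace Pool.Agent.R245.AX2

/-- The maximum principle for the larger one of two functions. -/
theorem max_pr3 {S C : ℝ} {f ft : Bool → ℝ → V → ℝ} {g gt gr grr : ℝ → ℝ → ℝ}
    (hf : ∀ b, ContinuousOn (fun q : ℝ × V => f b q.1 q.2) (Icc 0 S ×ˢ univ))
    (hg : ContinuousOn (fun q : ℝ × ℝ => g q.1 q.2) (Icc 0 S ×ˢ Ici 0))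
    (hg0 : ∀ t ∈ Icc 0 S, ∀ r, 0 ≤ r → 0 ≤ g t r)
    (hdec : ∀ ε > 0, ∃ R : ℝ, ∀ b, ∀ t ∈ Icc 0 S, ∀ r, 0 ≤ r → ∀ z, R ≤ ‖pt r z‖ →
      f b t (pt r z) ≤ ε)
    (hax : ∀ b, ∀ t ∈ Icc 0 S, ∀ z, f b t (pt 0 z) ≤ g t 0)
    (hin : ∀ b, ∀ r, 0 ≤ r → ∀ z, f b 0 (pt r z) ≤ g 0 r)
    (hsm : ∀ b, ∀ t ∈ Ioc 0 S, Sm (f b t))
    (hgr : ∀ t ∈ Ioc 0 S, ∀ r, 0 < r → HasDerivAt (g t) (gr t r) r)
    (hgrr : ∀ t ∈ Ioc 0 S, ∀ r, 0 < r → HasDerivAt (gr t) (grr t r) r)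
    (hft : ∀ b, ∀ t ∈ Ioc 0 S, ∀ r, 0 < r → ∀ z,
      HasDerivAt (fun s => f b s (pt r z)) (ft b t (pt r z)) t)
    (hgt : ∀ t ∈ Ioc 0 S, ∀ r, 0 < r → HasDerivAt (fun s => g s r) (gt t r) t)
    (key : ∀ b, ∀ t ∈ Ioc 0 S, ∀ r, 0 < r → ∀ z, g t r < f b t (pt r z) →
      (∀ b', f b' t (pt r z) ≤ f b t (pt r z)) →
      pd 0 (f b t) (pt r z) = gr t r → pd 2 (f b t) (pt r z) = 0 →
      pd 0 (pd 0 (f b t)) (pt r z) ≤ grr t r → pd 2 (pd 2 (f b t)) (pt r z) ≤ 0 →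
      ft b t (pt r z) - gt t r ≤ C * (f b t (pt r z) - g t r)) :
    ∀ b, ∀ t ∈ Icc 0 S, ∀ r, 0 ≤ r → ∀ z, f b t (pt r z) ≤ g t r := by
  intro b1 t1 ht1 r1 hr1 z1
  by_contra hcon
  push Not at hcon
  set L : ℝ := |C| + 1 with hL
  have hL0 : 0 ≤ L := by positivity
  set Φ : Bool → ℝ × ℝ × ℝ → ℝ := fun b q =>
    Real.exp (-(L * q.1)) * (f b q.1 (pt q.2.1 q.2.2) - g q.1 q.2.1) with hΦ
  set m : ℝ := Φ b1 (t1, r1, z1) with hm
  have hm0 : 0 < m := mul_pos (Real.exp_pos _) (by linarith)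
  obtain ⟨R, hR⟩ := hdec (m / 2) (by positivity)
  set R' : ℝ := max R (max |r1| |z1|) + 1 with hR'
  have hRR' : R ≤ R' := by
    have := le_max_left R (max |r1| |z1|)
    linarith
  have hr1R : |r1| ≤ R' := by
    have h2 := le_max_right R (max |r1| |z1|)
    have h3 := le_max_left |r1| |z1|
    linarith
  have hz1R : |z1| ≤ R' := by
    have h2 := le_max_right R (max |r1| |z1|)
    have h3 := le_max_right |r1| |z1|
    linarith
  set K : Set (ℝ × ℝ × ℝ) := Icc 0 S ×ˢ (Icc 0 R' ×ˢ Icc (-R') R') with hK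
  have hKc : IsCompact K := isCompact_Icc.prod (isCompact_Icc.prod isCompact_Icc)
  have hΦc : ∀ b, ContinuousOn (Φ b) K := by
    intro b
    have c1 : ContinuousOn (fun q : ℝ × ℝ × ℝ => f b q.1 (pt q.2.1 q.2.2)) K := by
      have c2 : Continuous fun q : ℝ × ℝ × ℝ => ((q.1, pt q.2.1 q.2.2) : ℝ × V) :=
        continuous_fst.prodMk (pt_cont.comp continuous_snd)
      exact (hf b).comp c2.continuousOn fun q hq => ⟨hq.1, mem_univ _⟩
    have c3 : ContinuousOn (fun q : ℝ × ℝ × ℝ => g q.1 q.2.1) K := by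
      have c2 : Continuous fun q : ℝ × ℝ × ℝ => ((q.1, q.2.1) : ℝ × ℝ) :=
        continuous_fst.prodMk (continuous_fst.comp continuous_snd)
      exact hg.comp c2.continuousOn fun q hq => ⟨hq.1, hq.2.1.1⟩
    have c4 : Continuous fun q : ℝ × ℝ × ℝ => Real.exp (-(L * q.1)) := by fun_prop
    exact c4.continuousOn.mul (c1.sub c3)
  have hp1 : (t1, r1, z1) ∈ K := by
    refine ⟨ht1, ⟨hr1, (le_abs_self _).trans hr1R⟩, ?_, (le_abs_self _).trans hz1R⟩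
    exact (abs_le.1 hz1R).1
  have hex : ∃ b0, ∃ q0 ∈ K, ∀ b, ∀ q ∈ K, Φ b q ≤ Φ b0 q0 := by
    obtain ⟨qt, hqt, hmt⟩ := hKc.exists_isMaxOn ⟨_, hp1⟩ (hΦc true)
    obtain ⟨qf, hqf, hmf⟩ := hKc.exists_isMaxOn ⟨_, hp1⟩ (hΦc false)
    rcases le_total (Φ true qt) (Φ false qf) with h1 | h1
    · refine ⟨false, qf, hqf, fun b q hq => ?_⟩
      cases b
      · exact hmf hq
      · exact le_trans (hmt hq) h1
    · refine ⟨true, qt, hqt, fun b q hq => ?_⟩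
      cases b
      · exact le_trans (hmf hq) h1
      · exact hmt hq
  obtain ⟨b0, ⟨t0, r0, z0⟩, hp0, hmax0⟩ := hex
  have hm1 : m ≤ Φ b0 (t0, r0, z0) := hmax0 b1 _ hp1
  have hall : ∀ b, ∀ t ∈ Icc 0 S, ∀ r, 0 ≤ r → ∀ z, Φ b (t, r, z) ≤ Φ b0 (t0, r0, z0) := by
    intro b t ht r hr z
    by_cases hin : (t, r, z) ∈ K
    · exact hmax0 b _ hin
    · have hbig : R' ≤ ‖pt r z‖ := by
        by_contra hlt
        push Not at hlt
        obtain ⟨n1, n2⟩ := le_norm_pt r z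
        exact hin ⟨ht, ⟨hr, ((le_abs_self _).trans n1).trans hlt.le⟩,
          (abs_le.1 (n2.trans hlt.le)).1, (abs_le.1 (n2.trans hlt.le)).2⟩
      have h3 := hR b t ht r hr z (hRR'.trans hbig)
      have h4 := hg0 t ht r hr
      have h5 : Real.exp (-(L * t)) ≤ 1 := Real.exp_le_one_iff.2 (by
        have := mul_nonneg hL0 ht.1
        linarith)
      have h6 : Φ b (t, r, z) ≤ m / 2 := by
        show Real.exp (-(L * t)) * (f b t (pt r z) - g t r) ≤ m / 2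
        calc Real.exp (-(L * t)) * (f b t (pt r z) - g t r) ≤ Real.exp (-(L * t)) * (m / 2) :=
              mul_le_mul_of_nonneg_left (by linarith) (Real.exp_pos _).le
          _ ≤ 1 * (m / 2) := mul_le_mul_of_nonneg_right h5 (by positivity)
          _ = m / 2 := one_mul _
      linarith
  have ht0 : t0 ∈ Icc 0 S := hp0.1
  have hr0 : 0 ≤ r0 := hp0.2.1.1
  have hpos : 0 < f b0 t0 (pt r0 z0) - g t0 r0 := by
    have h3 : 0 < Real.exp (-(L * t0)) * (f b0 t0 (pt r0 z0) - g t0 r0) := lt_of_lt_of_le hm0 hm1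
    exact (mul_pos_iff_of_pos_left (Real.exp_pos _)).1 h3
  have hr0' : 0 < r0 := by
    rcases hr0.eq_or_lt with h3 | h3
    · exfalso
      rw [← h3] at hpos
      linarith [hax b0 t0 ht0 z0]
    · exact h3
  have ht0' : 0 < t0 := by
    rcases ht0.1.eq_or_lt with h3 | h3
    · exfalso
      rw [← h3] at hpos
      linarith [hin b0 r0 hr0 z0]
    · exact h3
  have hI : t0 ∈ Ioc 0 S := ⟨ht0', ht0.2⟩
  -- time
  have d1 : HasDerivAt (fun s => Real.exp (-(L * s)) * (f b0 s (pt r0 z0) - g s r0))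
      (Real.exp (-(L * t0)) * -L * (f b0 t0 (pt r0 z0) - g t0 r0)
        + Real.exp (-(L * t0)) * (ft b0 t0 (pt r0 z0) - gt t0 r0)) t0 := by
    have e1 : HasDerivAt (fun s : ℝ => -(L * s)) (-L) t0 := by
      have e2 := ((hasDerivAt_id' t0).const_mul L).neg
      rw [mul_one] at e2
      exact e2
    exact e1.exp.mul ((hft b0 t0 hI r0 hr0' z0).sub (hgt t0 hI r0 hr0'))
  have h7 := left_test d1 ht0' fun s hs => hall b0 s ⟨hs.1.le, hs.2.le.trans ht0.2⟩ r0 hr0 z0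
  have h8 : L * (f b0 t0 (pt r0 z0) - g t0 r0) ≤ ft b0 t0 (pt r0 z0) - gt t0 r0 := by
    have e := Real.exp_pos (-(L * t0))
    have h9 : 0 ≤ Real.exp (-(L * t0)) * ((ft b0 t0 (pt r0 z0) - gt t0 r0)
        - L * (f b0 t0 (pt r0 z0) - g t0 r0)) := by
      calc (0 : ℝ) ≤ _ := h7
        _ = _ := by ring
    have := nonneg_of_mul_nonneg_right h9 e
    linarith
  -- space
  have hcmp : ∀ b, ∀ r, 0 ≤ r → ∀ z,
      f b t0 (pt r z) - g t0 r ≤ f b0 t0 (pt r0 z0) - g t0 r0 := by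
    intro b r hr z
    have h3 := hall b t0 ht0 r hr z
    exact le_of_mul_le_mul_left h3 (Real.exp_pos (-(L * t0)))
  have hbb : ∀ b', f b' t0 (pt r0 z0) ≤ f b0 t0 (pt r0 z0) := fun b' => by
    linarith [hcmp b' r0 hr0 z0]
  have s1 := snd_test (φ := fun r => f b0 t0 (pt r z0) - g t0 r)
    (φ' := fun r => pd 0 (f b0 t0) (pt r z0) - gr t0 r) (r := r0)
    (a := pd 0 (pd 0 (f b0 t0)) (pt r0 z0) - grr t0 r0)
    (by
      filter_upwards [Ioi_mem_nhds hr0'] with s hs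
      exact (hasDerivAt_pt0 (hsm b0 t0 hI) s z0).sub (hgr t0 hI s hs))
    ((hasDerivAt_pt0 ((hsm b0 t0 hI).pd' 0) r0 z0).sub (hgrr t0 hI r0 hr0'))
    (by
      filter_upwards [Ioi_mem_nhds hr0'] with s hs
      exact hcmp b0 s (le_of_lt hs) z0)
  have s2 := snd_test (φ := fun z => f b0 t0 (pt r0 z) - g t0 r0)
    (φ' := fun z => pd 2 (f b0 t0) (pt r0 z)) (r := z0)
    (a := pd 2 (pd 2 (f b0 t0)) (pt r0 z0))
    (Filter.Eventually.of_forall fun s =>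
      (hasDerivAt_pt2 (hsm b0 t0 hI) r0 s).sub_const _)
    (hasDerivAt_pt2 ((hsm b0 t0 hI).pd' 2) r0 z0)
    (Filter.Eventually.of_forall fun s => hcmp b0 r0 hr0 s)
  have h10 := key b0 t0 hI r0 hr0' z0 (by linarith) hbb (by linarith [s1.1]) s2.1
    (by linarith [s1.2]) s2.2
  have h11 : C * (f b0 t0 (pt r0 z0) - g t0 r0) < L * (f b0 t0 (pt r0 z0) - g t0 r0) := by
    refine mul_lt_mul_of_pos_right ?_ hpos
    have := le_abs_self C
    linarith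
  linarith

end Pool.Agent.R245.AX2
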