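import Pool.Agent.R245.AX2.P1

/-!
The computations for the barrier with the square of the swirl.
-/

open MeasureTheory Set Metric Filter Topology
open scoped ContDiff
open H459R3.NS Pool.Agent.R210 Pool.Agent.R210.Ax

namespace Pool.Agent.R245.AX2

/-- The equation at a point where the first derivatives are known. -/
theorem core {ν A r f fr fz frr fzz w wr wz wrr wzz v0 v2 gr grr σ : ℝ} (hν : 0 < ν) (hA : 0 < A)
    (hr : 0 < r) (hσ : σ ^ 2 = 1)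
    (h1 : fr + A * (2 * (w * wr)) = gr) (h2 : fz + A * (2 * (w * wz)) = 0)
    (h3 : frr + A * (2 * (w * wrr + wr * wr)) ≤ grr)
    (h4 : fzz + A * (2 * (w * wzz + wz * wz)) ≤ 0) :
    (ν * (frr + fzz + fr / r - f / r ^ 2) - v0 * fr - v2 * fz + v0 / r * f
        - 2 * (w / r) * (σ * -wz))
      + A * ((ν * (wrr + wzz + wr / r - w / r ^ 2) - v0 * wr - v2 * wz - v0 / r * w) * w
        + w * (ν * (wrr + wzz + wr / r - w / r ^ 2) - v0 * wr - v2 * wz - v0 / r * w))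
      ≤ ν * grr + (ν / r - v0) * gr - ν * f / r ^ 2 + w ^ 2 / (2 * ν * A * r ^ 2)
        - 2 * ν * A * w ^ 2 / r ^ 2 + v0 / r * (f - 2 * A * w ^ 2) := by
  have sq : 2 * (w / r) * (σ * wz) - 2 * ν * A * wz ^ 2 ≤ w ^ 2 / (2 * ν * A * r ^ 2) := by
    have e : w ^ 2 / (2 * ν * A * r ^ 2) - (2 * (w / r) * (σ * wz) - 2 * ν * A * wz ^ 2)
        = (2 * ν * A * r * wz - σ * w) ^ 2 / (2 * ν * A * r ^ 2) := by
      have e4 : (2 * ν * A * r * wz - σ * w) ^ 2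
          = (2 * ν * A * r * wz) ^ 2 - 4 * ν * A * r * wz * (σ * w) + w ^ 2 := by
        linear_combination (w ^ 2) * hσ
      rw [e4]
      field_simp
      ring
    have e5 : 0 ≤ (2 * ν * A * r * wz - σ * w) ^ 2 / (2 * ν * A * r ^ 2) := by positivity
    linarith
  have tot : (ν * (frr + fzz + fr / r - f / r ^ 2) - v0 * fr - v2 * fz + v0 / r * f
        - 2 * (w / r) * (σ * -wz))
      + A * ((ν * (wrr + wzz + wr / r - w / r ^ 2) - v0 * wr - v2 * wz - v0 / r * w) * w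
        + w * (ν * (wrr + wzz + wr / r - w / r ^ 2) - v0 * wr - v2 * wz - v0 / r * w))
      = ν * (frr + A * (2 * (w * wrr + wr * wr))) + ν * (fzz + A * (2 * (w * wzz + wz * wz)))
        + (ν / r - v0) * (fr + A * (2 * (w * wr))) - v2 * (fz + A * (2 * (w * wz)))
        - 2 * ν * A * wr ^ 2 + (2 * (w / r) * (σ * wz) - 2 * ν * A * wz ^ 2)
        - 2 * ν * A * w ^ 2 / r ^ 2 - ν * f / r ^ 2 + v0 / r * (f - 2 * A * w ^ 2) := by
    field_simp
    ring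
  rw [tot, h1, h2]
  have k1 := mul_le_mul_of_nonneg_left h3 hν.le
  have k2 := mul_le_mul_of_nonneg_left h4 hν.le
  have k3 : 0 ≤ 2 * ν * A * wr ^ 2 := by positivity
  linarith

/-- The hypothesis absorbs the remaining terms. -/
theorem absorb {ν A r a f w v0 G M : ℝ} (hν : 0 < ν) (hA : 0 < A) (hr : 0 < r)
    (h : r * v0 * ((1 - a) * f - (2 + a) * A * w ^ 2)
      ≤ ν * (1 - a ^ 2) * f + (ν * A * (2 - a ^ 2) - 1 / (2 * ν * A)) * w ^ 2
        + M * r ^ 2 * (f + A * w ^ 2)) :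
    ν * (a * (a - 1) * G / r ^ 2) + (ν / r - v0) * (a * G / r) - ν * f / r ^ 2
        + w ^ 2 / (2 * ν * A * r ^ 2)
        - 2 * ν * A * w ^ 2 / r ^ 2 + v0 / r * (f - 2 * A * w ^ 2) - M * G
      ≤ (-(ν * a ^ 2 / r ^ 2) + a * v0 / r + M) * (f + A * w ^ 2 - G) := by
  have e : (-(ν * a ^ 2 / r ^ 2) + a * v0 / r + M) * (f + A * w ^ 2 - G)
      - (ν * (a * (a - 1) * G / r ^ 2) + (ν / r - v0) * (a * G / r) - ν * f / r ^ 2
        + w ^ 2 / (2 * ν * A * r ^ 2)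
        - 2 * ν * A * w ^ 2 / r ^ 2 + v0 / r * (f - 2 * A * w ^ 2) - M * G)
      = (ν * (1 - a ^ 2) * f + (ν * A * (2 - a ^ 2) - 1 / (2 * ν * A)) * w ^ 2
        + M * r ^ 2 * (f + A * w ^ 2) - r * v0 * ((1 - a) * f - (2 + a) * A * w ^ 2)) / r ^ 2 := by
    field_simp
    ring
  have e2 : 0 ≤ (ν * (1 - a ^ 2) * f + (ν * A * (2 - a ^ 2) - 1 / (2 * ν * A)) * w ^ 2
        + M * r ^ 2 * (f + A * w ^ 2) - r * v0 * ((1 - a) * f - (2 + a) * A * w ^ 2)) / r ^ 2 :=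
    div_nonneg (by linarith) (by positivity)
  linarith

/-- The derivatives of the barrier. -/
theorem pdV {f g : V → ℝ} (hf : Sm f) (hg : Sm g) (c : ℝ) (i : Fin 3) :
    (pd i fun x => f x + c * (g x * g x)) = fun x => pd i f x + c * (2 * (g x * pd i g x)) := by
  funext x
  have h1 : Sm fun x => g x * g x := hg.mul hg
  rw [s_add hf (contDiff_const.mul h1), s_cmul c h1, s_mul hg hg]
  ring

theorem pdpdV {f g : V → ℝ} (hf : Sm f) (hg : Sm g) (c : ℝ) (i : Fin 3) :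
    (pd i (pd i fun x => f x + c * (g x * g x)))
      = fun x => pd i (pd i f) x
        + c * (2 * (g x * pd i (pd i g) x + pd i g x * pd i g x)) := by
  rw [pdV hf hg]
  funext x
  have h1 : Sm fun x => g x * pd i g x := hg.mul (hg.pd' i)
  have h2 : Sm fun x => 2 * (g x * pd i g x) := contDiff_const.mul h1
  rw [s_add (hf.pd' i) (contDiff_const.mul h2), s_cmul c h2, s_cmul 2 h1, s_mul hg (hg.pd' i)]

/-- The two signs. -/
noncomputable def sg (b : Bool) : ℝ := if b then 1 else -1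

theorem sg_sq (b : Bool) : sg b ^ 2 = 1 := by
  cases b <;> simp [sg]

theorem sg_not (b : Bool) : sg (!b) = -sg b := by
  cases b <;> simp [sg]

/-- The barrier function. -/
noncomputable def Vf (u : ℝ → V → V) (A : ℝ) (b : Bool) (t : ℝ) (x : V) : ℝ :=
  fo u (sg b) t x + A * (u t x 1 * u t x 1)

/-- The time derivative of the barrier function. -/
noncomputable def Vt (ν : ℝ) (u : ℝ → V → V) (A : ℝ) (b : Bool) (s : ℝ) (x : V) : ℝ :=
  (ν * (pd 0 (pd 0 (fo u (sg b) s)) x + pd 2 (pd 2 (fo u (sg b) s)) x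
          + pd 0 (fo u (sg b) s) x / x 0 - fo u (sg b) s x / x 0 ^ 2)
        - u s x 0 * pd 0 (fo u (sg b) s) x
        - u s x 2 * pd 2 (fo u (sg b) s) x
        + u s x 0 / x 0 * fo u (sg b) s x
        - 2 * (u s x 1 / x 0) * (sg b * cu (u s) x 0))
    + A * ((ν * (pd 0 (pd 0 fun y => u s y 1) x + pd 2 (pd 2 fun y => u s y 1) x
          + pd 0 (fun y => u s y 1) x / x 0 - u s x 1 / x 0 ^ 2)
        - u s x 0 * pd 0 (fun y => u s y 1) x
        - u s x 2 * pd 2 (fun y => u s y 1) x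
        - u s x 0 / x 0 * u s x 1) * u s x 1
      + u s x 1 * (ν * (pd 0 (pd 0 fun y => u s y 1) x + pd 2 (pd 2 fun y => u s y 1) x
          + pd 0 (fun y => u s y 1) x / x 0 - u s x 1 / x 0 ^ 2)
        - u s x 0 * pd 0 (fun y => u s y 1) x
        - u s x 2 * pd 2 (fun y => u s y 1) x
        - u s x 0 / x 0 * u s x 1))

variable {ν T E : ℝ} {u : ℝ → V → V} {p : ℝ → V → ℝ} {M : ℝ → ℝ}

theorem Vf_sm (h : AxSol ν T E u p) (A : ℝ) (b : Bool) {t : ℝ} (ht : t ∈ Ico 0 T) :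
    Sm (Vf u A b t) :=
  (h.fo_sm _ ht).add (contDiff_const.mul ((h.sm ht 1).mul (h.sm ht 1)))

theorem Vf_cont (h : AxSol ν T E u p) (A : ℝ) (b : Bool) {S : ℝ} (hS : S < T) :
    ContinuousOn (fun q : ℝ × V => Vf u A b q.1 q.2) (Icc 0 S ×ˢ univ) := by
  have c1 : ContinuousOn (fun q : ℝ × V => u q.1 q.2 1) (Icc 0 S ×ˢ (univ : Set V)) :=
    (h.smooth_c 1).continuousOn.mono fun q hq => ⟨⟨hq.1.1, hq.1.2.trans_lt hS⟩, hq.2⟩
  exact (h.fo_cont _ hS).add (continuousOn_const.mul (c1.mul c1))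

theorem Vf_dec (h : AxSol ν T E u p) {A : ℝ} (hA : 0 < A) {S : ℝ} (hS : S < T) :
    ∀ ε > 0, ∃ R : ℝ, ∀ b, ∀ t ∈ Icc 0 S, ∀ r, 0 ≤ r → ∀ z, R ≤ ‖pt r z‖ →
      Vf u A b t (pt r z) ≤ ε := by
  intro ε hε
  set δ : ℝ := min 1 (ε / (4 * (A + 1))) with hδ
  have hδ0 : 0 < δ := lt_min one_pos (by positivity)
  have hδ1 : δ ≤ 1 := min_le_left _ _
  have hδ2 : δ * (4 * (A + 1)) ≤ ε := by
    have := min_le_right 1 (ε / (4 * (A + 1)))
    rwa [← hδ, le_div_iff₀ (by positivity)] at this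
  obtain ⟨R, hR⟩ := h.decay S hS δ hδ0
  refine ⟨R, fun b t ht r hr z hx => ?_⟩
  obtain ⟨h1, h2⟩ := hR t ht _ hx
  have h3 := h.cu_le (t := t) ⟨ht.1, ht.2.trans_lt hS⟩ (pt r z)
  have h4 : fo u (sg b) t (pt r z) ≤ 2 * δ := by
    refine (le_abs_self _).trans ?_
    show |sg b * cu (u t) (pt r z) 1| ≤ _
    rw [abs_sg (sg_sq b)]
    linarith
  have h5 : |u t (pt r z) 1| ≤ δ := (norm_le_pi_norm (u t (pt r z)) 1).trans h1
  have h6 : u t (pt r z) 1 * u t (pt r z) 1 ≤ δ := by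
    rw [← abs_mul_abs_self]
    calc |u t (pt r z) 1| * |u t (pt r z) 1| ≤ δ * 1 :=
          mul_le_mul h5 (h5.trans hδ1) (abs_nonneg _) hδ0.le
      _ = δ := mul_one δ
  have h7 := mul_le_mul_of_nonneg_left h6 hA.le
  show fo u (sg b) t (pt r z) + A * (u t (pt r z) 1 * u t (pt r z) 1) ≤ ε
  nlinarith

theorem Vf_axis (h : AxSol ν T E u p) (A : ℝ) (b : Bool) {t : ℝ} (ht : t ∈ Ico 0 T) (z : ℝ) :
    Vf u A b t (pt 0 z) = 0 := by
  show sg b * cu (u t) (pt 0 z) 1 + A * (u t (pt 0 z) 1 * u t (pt 0 z) 1) = 0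
  rw [(h.axis ht z).1, (h.axis ht z).2]
  ring

theorem Vf_t (h : AxSol ν T E u p) (A : ℝ) (b : Bool) {t : ℝ} (ht : t ∈ Ioo 0 T) {r : ℝ}
    (hr : 0 < r) (z : ℝ) :
    HasDerivAt (fun s => Vf u A b s (pt r z)) (Vt ν u A b t (pt r z)) t :=
  (h.fo_eq (sg b) ht hr z).add (((h.u_eq ht hr z).mul (h.u_eq ht hr z)).const_mul A)

/-- The larger one of the two functions. -/
theorem Vf_abs {A : ℝ} {b : Bool} {t r z : ℝ} (hm : ∀ b', Vf u A b' t (pt r z) ≤ Vf u A b t (pt r z)) :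
    fo u (sg b) t (pt r z) = |cu (u t) (pt r z) 1| := by
  have h1 := hm (!b)
  have h2 : fo u (sg (!b)) t (pt r z) = -fo u (sg b) t (pt r z) := by
    show sg (!b) * _ = -(sg b * _)
    rw [sg_not]; ring
  unfold Vf at h1
  rw [h2] at h1
  have h3 : 0 ≤ fo u (sg b) t (pt r z) := by linarith
  rw [← abs_sg (sg_sq b) (cu (u t) (pt r z) 1)]
  exact (abs_of_nonneg h3).symm

theorem cu_le_Vf {A : ℝ} (hA : 0 < A) {t r z B : ℝ} (hm : ∀ b, Vf u A b t (pt r z) ≤ B) :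
    |cu (u t) (pt r z) 1| ≤ B := by
  have h1 := hm true
  have h2 := hm false
  have h3 : 0 ≤ A * (u t (pt r z) 1 * u t (pt r z) 1) :=
    mul_nonneg hA.le (mul_self_nonneg _)
  have e1 : Vf u A true t (pt r z) = 1 * cu (u t) (pt r z) 1
    + A * (u t (pt r z) 1 * u t (pt r z) 1) := by simp [Vf, fo, sg]
  have e2 : Vf u A false t (pt r z) = -1 * cu (u t) (pt r z) 1
    + A * (u t (pt r z) 1 * u t (pt r z) 1) := by simp [Vf, fo, sg]
  rw [abs_le]
  constructor <;> linarith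

/-- The main inequality at a maximum. -/
theorem Vt_le (h : AxSol ν T E u p) (hν : 0 < ν) {A : ℝ} (hA : 0 < A) {b : Bool} {s : ℝ}
    (hs : s ∈ Ico 0 T) {r : ℝ} (hr : 0 < r) {z gr grr : ℝ}
    (h1 : pd 0 (Vf u A b s) (pt r z) = gr) (h2 : pd 2 (Vf u A b s) (pt r z) = 0)
    (h3 : pd 0 (pd 0 (Vf u A b s)) (pt r z) ≤ grr) (h4 : pd 2 (pd 2 (Vf u A b s)) (pt r z) ≤ 0) :
    Vt ν u A b s (pt r z) ≤ ν * grr + (ν / r - u s (pt r z) 0) * gr
      - ν * fo u (sg b) s (pt r z) / r ^ 2 + u s (pt r z) 1 ^ 2 / (2 * ν * A * r ^ 2)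
      - 2 * ν * A * u s (pt r z) 1 ^ 2 / r ^ 2
      + u s (pt r z) 0 / r * (fo u (sg b) s (pt r z) - 2 * A * u s (pt r z) 1 ^ 2) := by
  have hfs := h.fo_sm (sg b) hs
  have hgs : Sm fun y => u s y 1 := h.sm hs 1
  have e : Vf u A b s = fun x => fo u (sg b) s x + A * ((fun y => u s y 1) x * (fun y => u s y 1) x) :=
    rfl
  rw [e, pdV hfs hgs] at h1 h2
  rw [e, pdpdV hfs hgs] at h3 h4
  have e0 : pt r z 0 = r := rfl
  have hw0 : cu (u s) (pt r z) 0 = -pd 2 (fun y => u s y 1) (pt r z) := by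
    have c0 : cu (u s) (pt r z) 0 = pd 1 (fun y => u s y 2) (pt r z)
      - pd 2 (fun y => u s y 1) (pt r z) := rfl
    rw [c0, (at_pt (fun i => h.sm hs i) (h.axi_u s hs) hr z).2.2]
    ring
  unfold Vt
  simp only [e0, hw0]
  exact core hν hA hr (sg_sq b) h1 h2 h3 h4

end Pool.Agent.R245.AX2
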