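import Pool.Agent.R245.AX2.P2

/-!
The criterion with the square of the swirl.
-/

open MeasureTheory Set Metric Filter Topology
open scoped ContDiff
open H459R3.NS Pool.Agent.R210 Pool.Agent.R210.Ax

namespace Pool.Agent.R245.AX2

variable {ν T E : ℝ} {u : ℝ → V → V} {p : ℝ → V → ℝ} {M : ℝ → ℝ}

/-- The condition of the theorem at the time `t`. -/
def CondC (ν a A K M : ℝ) (v : V → V) : Prop := ∀ r z : ℝ, 0 < r →
  K * min 1 (r ^ a) < |cu v (pt r z) 1| + A * v (pt r z) 1 ^ 2 →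
  r * v (pt r z) 0 * ((1 - a) * |cu v (pt r z) 1| - (2 + a) * A * v (pt r z) 1 ^ 2)
    ≤ ν * (1 - a ^ 2) * |cu v (pt r z) 1|
      + (ν * A * (2 - a ^ 2) - 1 / (2 * ν * A)) * v (pt r z) 1 ^ 2
      + M * r ^ 2 * (|cu v (pt r z) 1| + A * v (pt r z) 1 ^ 2)

/-- Step 1: the barrier `r ^ a`. -/
theorem step1 (h : AxSol ν T E u p) (hν : 0 < ν) {a A K : ℝ} (hA : 0 < A) (ha0 : 0 ≤ a)
    (hM0 : ∀ t ∈ Ioo 0 T, 0 ≤ M t) (hMc : ContinuousOn M (Ico 0 T)) (hMi : IntegrableOn M (Ioo 0 T))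
    (hc : ∀ t ∈ Ioo 0 T, CondC ν a A K (M t) (u t)) {D : ℝ} (hD0 : 0 ≤ D) (hKD : K ≤ D)
    (hD : ∀ b, ∀ r, 0 ≤ r → ∀ z, Vf u A b 0 (pt r z) ≤ D * r ^ a)
    (b : Bool) {t : ℝ} (ht : t ∈ Ico 0 T) {r : ℝ} (hr : 0 ≤ r) (z : ℝ) :
    Vf u A b t (pt r z) ≤ D * Real.exp (II M t) * r ^ a := by
  have hT : 0 < T := ht.1.trans_lt ht.2
  obtain ⟨hId, hIc, hIb⟩ := II_props hM0 hMc hMi
  obtain ⟨W, hW0, hW⟩ := h.bdd ht.2
  obtain ⟨CM, hCM⟩ := isCompact_Icc.exists_bound_of_continuousOn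
    (hMc.mono fun s (hs : s ∈ Icc 0 t) => ⟨hs.1, hs.2.trans_lt ht.2⟩)
  have hra : Continuous fun r : ℝ => r ^ a := Real.continuous_rpow_const ha0
  have hsub : ∀ s ∈ Ioc 0 t, s ∈ Ioo 0 T := fun s hs => ⟨hs.1, hs.2.trans_lt ht.2⟩
  refine max_pr3 (S := t) (C := W ^ 2 / (4 * ν) + CM) (f := Vf u A) (ft := Vt ν u A)
    (g := fun s r => D * Real.exp (II M s) * r ^ a)
    (gt := fun s r => D * (Real.exp (II M s) * M s) * r ^ a)
    (gr := fun s r => D * Real.exp (II M s) * (a * r ^ (a - 1)))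
    (grr := fun s r => D * Real.exp (II M s) * (a * ((a - 1) * r ^ (a - 1 - 1))))
    (fun b => Vf_cont h A b ht.2) ?_ ?_ (Vf_dec h hA ht.2) ?_ ?_ ?_
    ?_ ?_ (fun b s hs r hr z => Vf_t h A b (hsub s hs) hr z) ?_ ?_ b t ⟨ht.1, le_rfl⟩ r hr z
  · refine (continuousOn_const.mul ?_).mul (hra.comp continuous_snd).continuousOn
    exact (Real.continuous_exp.comp_continuousOn (hIc.comp continuousOn_fst
      fun q hq => ⟨hq.1.1, hq.1.2.trans_lt ht.2⟩))
  · intro s _ r hr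
    have := Real.rpow_nonneg hr a
    positivity
  · intro b s hs z
    rw [Vf_axis h A b ⟨hs.1, hs.2.trans_lt ht.2⟩ z]
    have := Real.rpow_nonneg (le_refl (0 : ℝ)) a
    positivity
  · intro b r hr z
    have e0 : II M 0 = 0 := by simp [II]
    rw [e0, Real.exp_zero, mul_one]
    exact hD b r hr z
  · intro b s hs
    exact Vf_sm h A b ⟨hs.1.le, (hsub s hs).2⟩
  · intro s _ r hr
    exact (Real.hasDerivAt_rpow_const (Or.inl hr.ne')).const_mul _
  · intro s _ r hr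
    exact ((Real.hasDerivAt_rpow_const (Or.inl hr.ne')).const_mul a).const_mul _
  · intro s hs r _
    exact (((hId s (hsub s hs)).exp).const_mul D).mul_const _
  · intro b s hs r hr z hfg hmax h1 h2 h3 h4
    have hsT : s ∈ Ico 0 T := ⟨hs.1.le, (hsub s hs).2⟩
    have hfabs := Vf_abs hmax
    set G := D * Real.exp (II M s) * r ^ a with hG
    have hra0 : 0 < r ^ a := Real.rpow_pos_of_pos hr a
    have hG0 : 0 ≤ G := by positivity
    have hexp : 1 ≤ Real.exp (II M s) := Real.one_le_exp (hIb s hsT).1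
    have hVe : Vf u A b s (pt r z)
        = |cu (u s) (pt r z) 1| + A * u s (pt r z) 1 ^ 2 := by
      unfold Vf
      rw [hfabs]
      ring
    have hKf : K * min 1 (r ^ a) < |cu (u s) (pt r z) 1| + A * u s (pt r z) 1 ^ 2 := by
      rw [← hVe]
      refine lt_of_le_of_lt ?_ hfg
      have m1 : min 1 (r ^ a) ≤ r ^ a := min_le_right _ _
      have m0 : 0 ≤ min 1 (r ^ a) := le_min zero_le_one hra0.le
      calc K * min 1 (r ^ a) ≤ D * min 1 (r ^ a) := mul_le_mul_of_nonneg_right hKD m0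
        _ ≤ D * r ^ a := mul_le_mul_of_nonneg_left m1 hD0
        _ ≤ D * Real.exp (II M s) * r ^ a :=
            mul_le_mul_of_nonneg_right (le_mul_of_one_le_right hD0 hexp) hra0.le
    have hcond := hc s (hsub s hs) r z hr hKf
    have hr1 : D * Real.exp (II M s) * (a * r ^ (a - 1)) = a * G / r := by
      rw [Real.rpow_sub_one hr.ne', hG]
      field_simp
    have hr2 : D * Real.exp (II M s) * (a * ((a - 1) * r ^ (a - 1 - 1)))
        = a * (a - 1) * G / r ^ 2 := by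
      rw [Real.rpow_sub_one hr.ne', Real.rpow_sub_one hr.ne', hG]
      field_simp
    have k1 := Vt_le h hν hA hsT hr h1 h2 h3 h4
    rw [hr1, hr2, hfabs] at k1
    have k2 := absorb (G := G) (a := a) hν hA hr hcond
    have hgt : D * (Real.exp (II M s) * M s) * r ^ a = M s * G := by rw [hG]; ring
    show Vt ν u A b s (pt r z) - D * (Real.exp (II M s) * M s) * r ^ a
      ≤ (W ^ 2 / (4 * ν) + CM) * (Vf u A b s (pt r z) - G)
    rw [hgt]
    have hM : M s ≤ CM := (le_abs_self _).trans (hCM s ⟨hs.1.le, hs.2⟩)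
    have hfg' : G < Vf u A b s (pt r z) := hfg
    have hF : 0 < |cu (u s) (pt r z) 1| + A * u s (pt r z) 1 ^ 2 - G := by
      rw [← hVe]
      exact sub_pos.2 hfg'
    rw [hVe]
    set v0 := u s (pt r z) 0 with hv0
    have hV : |v0| ≤ W := (norm_le_pi_norm (u s (pt r z)) 0).trans (hW s ⟨hs.1.le, hs.2⟩ _)
    have hV2 : v0 ^ 2 ≤ W ^ 2 := by
      rw [← sq_abs]
      exact pow_le_pow_left₀ (abs_nonneg _) hV 2
    have k3 : -(ν * a ^ 2 / r ^ 2) + a * v0 / r ≤ W ^ 2 / (4 * ν) := by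
      have e1 : W ^ 2 / (4 * ν) - (-(ν * a ^ 2 / r ^ 2) + a * v0 / r)
          = (W ^ 2 - v0 ^ 2) / (4 * ν) + (2 * ν * a / r - v0) ^ 2 / (4 * ν) := by
        field_simp
        ring
      have e2 : 0 ≤ (W ^ 2 - v0 ^ 2) / (4 * ν) := div_nonneg (by linarith) (by positivity)
      have e3 : 0 ≤ (2 * ν * a / r - v0) ^ 2 / (4 * ν) := by positivity
      linarith
    have k4 := mul_le_mul_of_nonneg_right
      (show -(ν * a ^ 2 / r ^ 2) + a * v0 / r + M s ≤ W ^ 2 / (4 * ν) + CM by linarith) hF.le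
    have k5 : ν * (a * (a - 1) * G / r ^ 2) = ν * (a * (a - 1) * G / r ^ 2) := rfl
    linarith

/-- Step 2: the bound of the barrier function. -/
theorem step2 (h : AxSol ν T E u p) (hν : 0 < ν) {a A K : ℝ} (hA : 0 < A) (ha0 : 0 ≤ a)
    (ha1 : a ≤ 1)
    (hM0 : ∀ t ∈ Ioo 0 T, 0 ≤ M t) (hMc : ContinuousOn M (Ico 0 T)) (hMi : IntegrableOn M (Ioo 0 T))
    (hc : ∀ t ∈ Ioo 0 T, CondC ν a A K (M t) (u t)) {D B C' : ℝ} (hD0 : 0 ≤ D) (hKB : K ≤ B)
    (hDB : D ≤ B) (hC' : C' = 32 * BB * D + BB * (8 + E ^ 2))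
    (hD : ∀ b, ∀ t ∈ Ico 0 T, ∀ r, 0 ≤ r → ∀ z, Vf u A b t (pt r z) ≤ D * r ^ a)
    (hB : ∀ b, ∀ r, 0 ≤ r → ∀ z, Vf u A b 0 (pt r z) ≤ B)
    (b : Bool) {t : ℝ} (ht : t ∈ Ico 0 T) {r : ℝ} (hr : 0 ≤ r) (z : ℝ) :
    Vf u A b t (pt r z) ≤ B * Real.exp (II M t + C' * t) := by
  have hBB := one_le_BB
  have hT : 0 < T := ht.1.trans_lt ht.2
  have hB0 : 0 ≤ B := hD0.trans hDB
  have hC'0 : 0 ≤ C' := by rw [hC']; positivity
  obtain ⟨hId, hIc, hIb⟩ := II_props hM0 hMc hMi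
  obtain ⟨CM, hCM⟩ := isCompact_Icc.exists_bound_of_continuousOn
    (hMc.mono fun s (hs : s ∈ Icc 0 t) => ⟨hs.1, hs.2.trans_lt ht.2⟩)
  have hsub : ∀ s ∈ Ioc 0 t, s ∈ Ioo 0 T := fun s hs => ⟨hs.1, hs.2.trans_lt ht.2⟩
  refine max_pr3 (S := t) (C := CM + C') (f := Vf u A) (ft := Vt ν u A)
    (g := fun s _ => B * Real.exp (II M s + C' * s))
    (gt := fun s _ => B * (Real.exp (II M s + C' * s) * (M s + C')))
    (gr := fun _ _ => 0) (grr := fun _ _ => 0)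
    (fun b => Vf_cont h A b ht.2) ?_ ?_ (Vf_dec h hA ht.2) ?_ ?_ ?_
    (fun s _ r _ => hasDerivAt_const _ _) (fun s _ r _ => hasDerivAt_const _ _)
    (fun b s hs r hr z => Vf_t h A b (hsub s hs) hr z) ?_ ?_ b t ⟨ht.1, le_rfl⟩ r hr z
  · refine continuousOn_const.mul (Real.continuous_exp.comp_continuousOn ?_)
    refine (hIc.comp continuousOn_fst fun q hq => ⟨hq.1.1, hq.1.2.trans_lt ht.2⟩).add ?_
    exact (continuous_const.mul continuous_fst).continuousOn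
  · intro s _ r hr
    positivity
  · intro b s hs z
    rw [Vf_axis h A b ⟨hs.1, hs.2.trans_lt ht.2⟩ z]
    positivity
  · intro b r hr z
    have e0 : II M 0 = 0 := by simp [II]
    rw [e0, mul_zero, add_zero, Real.exp_zero, mul_one]
    exact hB b r hr z
  · intro b s hs
    exact Vf_sm h A b ⟨hs.1.le, (hsub s hs).2⟩
  · intro s hs r _
    have h1 : HasDerivAt (fun s => II M s + C' * s) (M s + C' * 1) s :=
      (hId s (hsub s hs)).add ((hasDerivAt_id' s).const_mul C')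
    rw [mul_one] at h1
    exact h1.exp.const_mul B
  · intro b s hs r hr z hfg hmax h1 h2 h3 h4
    have hsT : s ∈ Ico 0 T := ⟨hs.1.le, (hsub s hs).2⟩
    have hfabs := Vf_abs hmax
    set G := B * Real.exp (II M s + C' * s) with hG
    have hII := (hIb s hsT).1
    have hexp : 1 ≤ Real.exp (II M s + C' * s) :=
      Real.one_le_exp (add_nonneg hII (mul_nonneg hC'0 hs.1.le))
    have hBG : B ≤ G := le_mul_of_one_le_right hB0 hexp
    have hG0 : 0 ≤ G := hB0.trans hBG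
    have hfg' : G < Vf u A b s (pt r z) := hfg
    have hra0 : 0 < r ^ a := Real.rpow_pos_of_pos hr a
    have hfA : Vf u A b s (pt r z) ≤ D * r ^ a := hD b s hsT r hr.le z
    -- the radius is larger than one
    have hr1 : 1 < r := by
      by_contra hcon
      push Not at hcon
      have h5 : r ^ a ≤ 1 := Real.rpow_le_one hr.le hcon ha0
      have h6 : D * r ^ a ≤ D := mul_le_of_le_one_right hD0 h5
      linarith
    have hVe : Vf u A b s (pt r z)
        = |cu (u s) (pt r z) 1| + A * u s (pt r z) 1 ^ 2 := by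
      unfold Vf
      rw [hfabs]
      ring
    have hKf : K * min 1 (r ^ a) < |cu (u s) (pt r z) 1| + A * u s (pt r z) 1 ^ 2 := by
      rw [← hVe]
      refine lt_of_le_of_lt ?_ hfg'
      have m1 : min 1 (r ^ a) ≤ 1 := min_le_left _ _
      have m0 : 0 ≤ min 1 (r ^ a) := le_min zero_le_one hra0.le
      calc K * min 1 (r ^ a) ≤ B * min 1 (r ^ a) := mul_le_mul_of_nonneg_right hKB m0
        _ ≤ B * 1 := mul_le_mul_of_nonneg_left m1 hB0
        _ ≤ G := by rw [mul_one]; exact hBG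
    have hcond := hc s (hsub s hs) r z hr hKf
    -- the radial velocity
    have hv : |u s (pt r z) 0| ≤ C' * r := by
      have h5 := (h.mer hsT (B := D * (r + 1)) (by positivity) hr.le (fun ρ ζ hρ hρr => by
        refine (cu_le_Vf hA fun b => hD b s hsT ρ hρ ζ).trans (mul_le_mul_of_nonneg_left ?_ hD0)
        rcases le_total ρ 1 with h6 | h6
        · exact (Real.rpow_le_one hρ h6 ha0).trans (by linarith)
        · calc ρ ^ a ≤ ρ ^ (1 : ℝ) := Real.rpow_le_rpow_of_exponent_le h6 ha1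
            _ = ρ := Real.rpow_one ρ
            _ ≤ r + 1 := hρr) z).1
      refine h5.trans ?_
      rw [hC']
      have h6 : 16 * BB * (D * (r + 1)) ≤ 32 * BB * D * r := by
        have : 0 ≤ 16 * BB * D := by positivity
        nlinarith
      have h7 : BB * (8 + E ^ 2) ≤ BB * (8 + E ^ 2) * r :=
        le_mul_of_one_le_right (by positivity) hr1.le
      linarith
    have k1 := Vt_le h hν hA hsT hr h1 h2 h3 h4
    rw [hfabs] at k1
    have k2 := absorb (G := 0) (a := a) hν hA hr hcond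
    show Vt ν u A b s (pt r z) - B * (Real.exp (II M s + C' * s) * (M s + C'))
      ≤ (CM + C') * (Vf u A b s (pt r z) - G)
    rw [hVe] at hfg' ⊢
    set v0 := u s (pt r z) 0 with hv0
    have hv1 : v0 / r ≤ C' := by
      rw [div_le_iff₀ hr]
      exact (le_abs_self _).trans hv
    have hM : M s ≤ CM := (le_abs_self _).trans (hCM s ⟨hs.1.le, hs.2⟩)
    have hMs := hM0 s (hsub s hs)
    have hgt : B * (Real.exp (II M s + C' * s) * (M s + C')) = (M s + C') * G := by rw [hG]; ring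
    rw [hgt]
    set F := |cu (u s) (pt r z) 1| + A * u s (pt r z) 1 ^ 2 with hFd
    have hF0 : 0 ≤ F := hG0.trans hfg'.le
    have k3 : -(ν * a ^ 2 / r ^ 2) + a * v0 / r + M s ≤ C' + M s := by
      have e1 : 0 ≤ ν * a ^ 2 / r ^ 2 := by positivity
      have e2 : a * v0 / r ≤ C' := by
        rw [mul_div_assoc]
        rcases le_total 0 (v0 / r) with h5 | h5
        · exact (mul_le_of_le_one_left h5 ha1).trans hv1
        · exact (mul_nonpos_of_nonneg_of_nonpos ha0 h5).trans hC'0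
      linarith
    have k4 : (-(ν * a ^ 2 / r ^ 2) + a * v0 / r + M s) * F ≤ (C' + M s) * F :=
      mul_le_mul_of_nonneg_right k3 hF0
    have k5 : (C' + M s) * (F - G) ≤ (CM + C') * (F - G) :=
      mul_le_mul_of_nonneg_right (by linarith) (by linarith)
    simp only [mul_zero, zero_div, sub_zero] at k1 k2
    linarith

/-- The initial values. -/
theorem init_bd (h : AxSol ν T E u p) (hT : 0 < T) {A : ℝ} (hA : 0 < A) :
    ∃ D : ℝ, 0 ≤ D ∧ ∀ b, ∀ r, 0 ≤ r → ∀ z,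
      Vf u A b 0 (pt r z) ≤ D * r ∧ Vf u A b 0 (pt r z) ≤ D := by
  have h0 : (0 : ℝ) ∈ Ico 0 T := ⟨le_rfl, hT⟩
  obtain ⟨A0, hA00, hA0⟩ := h.init hT
  obtain ⟨C1, hC10, hC1⟩ := h.grad_bdd h0
  obtain ⟨W, hW0, hW⟩ := h.bdd hT
  have hu : ∀ r, 0 ≤ r → ∀ z, |u 0 (pt r z) 1| ≤ C1 * r := by
    intro r hr z
    have hd : ∀ s ∈ Icc 0 r, HasDerivWithinAt (fun s => u 0 (pt s z) 1)
        (pd 0 (fun y => u 0 y 1) (pt s z)) (Icc 0 r) s := fun s _ =>
      (hasDerivAt_pt0 (h.sm h0 1) s z).hasDerivWithinAt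
    have hb : ∀ s ∈ Icc 0 r, ‖pd 0 (fun y => u 0 y 1) (pt s z)‖ ≤ C1 := fun s _ =>
      (h.pd_le h0 1 0 _).trans (hC1 _)
    have h1 := Convex.norm_image_sub_le_of_norm_hasDerivWithin_le hd hb (convex_Icc _ _)
      (left_mem_Icc.2 hr) (right_mem_Icc.2 hr)
    rw [(h.axis h0 z).2, sub_zero, sub_zero, Real.norm_eq_abs, Real.norm_eq_abs,
      abs_of_nonneg hr] at h1
    exact h1
  have huW : ∀ r, ∀ z, |u 0 (pt r z) 1| ≤ W := fun r z =>
    (norm_le_pi_norm (u 0 (pt r z)) 1).trans (hW 0 ⟨le_rfl, le_rfl⟩ _)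
  refine ⟨A0 + A * (C1 * W + W * W), by positivity, fun b r hr z => ?_⟩
  obtain ⟨h1, h2⟩ := hA0 r hr z
  have h3 : fo u (sg b) 0 (pt r z) ≤ |cu (u 0) (pt r z) 1| := by
    rw [← abs_sg (sg_sq b) (cu (u 0) (pt r z) 1)]
    exact le_abs_self _
  have h4 : u 0 (pt r z) 1 * u 0 (pt r z) 1 ≤ C1 * r * W := by
    rw [← abs_mul_abs_self]
    exact mul_le_mul (hu r hr z) (huW r z) (abs_nonneg _) (by positivity)
  have h5 : u 0 (pt r z) 1 * u 0 (pt r z) 1 ≤ W * W := by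
    rw [← abs_mul_abs_self]
    exact mul_le_mul (huW r z) (huW r z) (abs_nonneg _) hW0
  have h6 := mul_le_mul_of_nonneg_left h4 hA.le
  have h7 := mul_le_mul_of_nonneg_left h5 hA.le
  have h8 : 0 ≤ A * (W * W) := by positivity
  have h9 : 0 ≤ A * (C1 * W) := by positivity
  constructor
  · show fo u (sg b) 0 (pt r z) + A * (u 0 (pt r z) 1 * u 0 (pt r z) 1) ≤ _
    have h10 := mul_nonneg h8 hr
    nlinarith
  · show fo u (sg b) 0 (pt r z) + A * (u 0 (pt r z) 1 * u 0 (pt r z) 1) ≤ _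
    linarith

/-- The criterion. -/
theorem criterionC (h : AxSol ν T E u p) (hν : 0 < ν) {a A K : ℝ} (hA : 0 < A) (ha0 : 0 ≤ a)
    (ha1 : a ≤ 1)
    (hM0 : ∀ t ∈ Ioo 0 T, 0 ≤ M t) (hMc : ContinuousOn M (Ico 0 T)) (hMi : IntegrableOn M (Ioo 0 T))
    (hc : ∀ t ∈ Ioo 0 T, CondC ν a A K (M t) (u t)) :
    ∃ B : ℝ, ∀ t ∈ Ico 0 T, ∀ x, ‖u t x‖ ≤ B := by
  have hBB := one_le_BB
  rcases le_or_gt T 0 with hT | hT
  · exact ⟨0, fun t ht => absurd (ht.1.trans_lt ht.2) (not_lt.2 hT)⟩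
  obtain ⟨hId, hIc, hIb⟩ := II_props hM0 hMc hMi
  set I1 : ℝ := ∫ s in Ioo 0 T, M s with hI1
  obtain ⟨A0, hA00, hA0⟩ := init_bd h hT hA
  set A1 : ℝ := max A0 K with hA1
  have hA10 : 0 ≤ A1 := hA00.trans (le_max_left _ _)
  have hinit : ∀ b, ∀ r, 0 ≤ r → ∀ z, Vf u A b 0 (pt r z) ≤ A1 * r ^ a := by
    intro b r hr z
    obtain ⟨h1, h2⟩ := hA0 b r hr z
    rcases le_total r 1 with h3 | h3
    · rcases hr.eq_or_lt with h4 | h4
      · rw [← h4] at h1 ⊢
        rw [mul_zero] at h1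
        exact h1.trans (mul_nonneg hA10 (Real.rpow_nonneg le_rfl a))
      · have h5 : r ≤ r ^ a := by
          calc r = r ^ (1 : ℝ) := (Real.rpow_one r).symm
            _ ≤ r ^ a := Real.rpow_le_rpow_of_exponent_ge h4 h3 ha1
        calc _ ≤ A0 * r := h1
          _ ≤ A1 * r ^ a := mul_le_mul (le_max_left _ _) h5 hr hA10
    · have h5 : 1 ≤ r ^ a := Real.one_le_rpow h3 ha0
      calc _ ≤ A0 := h2
        _ ≤ A1 := le_max_left _ _
        _ ≤ A1 * r ^ a := le_mul_of_one_le_right hA10 h5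
  set D : ℝ := A1 * Real.exp I1 with hDd
  have hI10 : 0 ≤ I1 := (hIb 0 ⟨le_rfl, hT⟩).1.trans (hIb 0 ⟨le_rfl, hT⟩).2
  have hD : 0 ≤ D := by positivity
  have hexp1 : 1 ≤ Real.exp I1 := Real.one_le_exp hI10
  have hA1D : A1 ≤ D := le_mul_of_one_le_right hA10 hexp1
  have s1 : ∀ b, ∀ t ∈ Ico 0 T, ∀ r, 0 ≤ r → ∀ z, Vf u A b t (pt r z) ≤ D * r ^ a := by
    intro b t ht r hr z
    have hra := Real.rpow_nonneg hr a
    refine (step1 h hν hA ha0 hM0 hMc hMi hc hA10 (le_max_right _ _) hinit b ht hr z).trans ?_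
    refine mul_le_mul_of_nonneg_right ?_ hra
    exact mul_le_mul_of_nonneg_left (Real.exp_le_exp.2 (hIb t ht).2) hA10
  obtain ⟨C', hC'⟩ : ∃ C', C' = 32 * BB * D + BB * (8 + E ^ 2) := ⟨_, rfl⟩
  have hC'0 : 0 ≤ C' := by rw [hC']; positivity
  set B : ℝ := D * Real.exp (I1 + C' * T) with hBd
  have hB0 : 0 ≤ B := by positivity
  refine h.vel_le hν hB0 fun t ht r hr z => cu_le_Vf hA fun b => ?_
  have hin2 : ∀ b, ∀ r, 0 ≤ r → ∀ z, Vf u A b 0 (pt r z) ≤ D := fun b r hr z =>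
    ((hA0 b r hr z).2.trans (le_max_left _ _)).trans hA1D
  refine (step2 h hν hA ha0 ha1 hM0 hMc hMi hc hD ((le_max_right _ _).trans hA1D) le_rfl hC' s1
    hin2 b ht hr z).trans ?_
  refine mul_le_mul_of_nonneg_left (Real.exp_le_exp.2 ?_) hD
  have := mul_le_mul_of_nonneg_left ht.2.le hC'0
  linarith [(hIb t ht).2]

end Pool.Agent.R245.AX2
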